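import Mathlib

namespace Pool.Agent.Results.MP_8e2e71_co.Bishops

open Finset

/-- The bishops graph `B_{k,n}`: the squares of a board with `k` rows and `n` columns, two distinct
squares being adjacent iff they lie on a common diagonal. -/
def bishopsGraph (k n : ℕ) : SimpleGraph (Fin k × Fin n) where
  Adj v w := v ≠ w ∧ |((v.1 : ℕ) : ℤ) - ((w.1 : ℕ) : ℤ)| = |((v.2 : ℕ) : ℤ) - ((w.2 : ℕ) : ℤ)|
  symm := ⟨by
    intro v w h
    refine ⟨h.1.symm, ?_⟩
    rw [abs_sub_comm, h.2, abs_sub_comm]⟩
  loopless := ⟨fun v h => h.1 rfl⟩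

/-- `D` is a dominating set of `G`. -/
def IsDominating {V : Type*} (G : SimpleGraph V) (D : Finset V) : Prop :=
  ∀ v, v ∉ D → ∃ w ∈ D, G.Adj v w

/-- The domination number: the minimum size of a dominating set. -/
noncomputable def dominationNumber {V : Type*} (G : SimpleGraph V) : ℕ :=
  sInf {m | ∃ D : Finset V, IsDominating G D ∧ D.card = m}

/-- The peeling lemma. -/
theorem peel (K : ℤ) (hK : 0 ≤ K) : ∀ (m : ℕ) (D : Finset (ℤ × ℤ)) (U V : Finset ℤ),
    (∀ b ∈ D, b.1 ≤ b.2 ∧ b.2 ≤ b.1 + K) → U.card + V.card = m + 1 →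
    (∀ u ∈ U, (∀ b ∈ D, b.1 ≠ u) ∧ ∀ t, u ≤ t → t ≤ u + K → ∃ b ∈ D, b.2 = t) →
    (∀ v ∈ V, (∀ b ∈ D, b.2 ≠ v) ∧ ∀ s, v - K ≤ s → s ≤ v → ∃ b ∈ D, b.1 = s) →
    ((m : ℤ) + 1 + K ≤ (D.card : ℤ)) := by
  intro m
  induction m with
  | zero =>
    intro D U V hD hc hU hV
    by_cases hU0 : U.Nonempty
    · obtain ⟨u, hu⟩ := hU0
      have h1 : Icc u (u + K) ⊆ D.image Prod.snd := by
        intro t ht
        rw [mem_Icc] at ht
        obtain ⟨b, hb, hbt⟩ := (hU u hu).2 t ht.1 ht.2
        exact mem_image.mpr ⟨b, hb, hbt⟩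
      have h2 := (card_le_card h1).trans card_image_le
      rw [Int.card_Icc] at h2
      omega
    · rw [not_nonempty_iff_eq_empty] at hU0
      subst hU0
      have hV0 : V.Nonempty := by
        rw [← card_pos]; simp at hc; omega
      obtain ⟨v, hv⟩ := hV0
      have h1 : Icc (v - K) v ⊆ D.image Prod.fst := by
        intro t ht
        rw [mem_Icc] at ht
        obtain ⟨b, hb, hbt⟩ := (hV v hv).2 t ht.1 ht.2
        exact mem_image.mpr ⟨b, hb, hbt⟩
      have h2 := (card_le_card h1).trans card_image_le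
      rw [Int.card_Icc] at h2
      omega
  | succ m ih =>
    intro D U V hD hc hU hV
    have key : (∃ v ∈ V, (∀ u ∈ U, v < u) ∧ ∀ w ∈ V, v ≤ w) ∨
        (∃ u ∈ U, (∀ v ∈ V, u + K < v) ∧ ∀ w ∈ U, u ≤ w) := by
      by_cases hU0 : U.Nonempty
      · by_cases hV0 : V.Nonempty
        · have hu := U.min'_mem hU0
          have hv := V.min'_mem hV0
          set u := U.min' hU0 with hudef
          set v := V.min' hV0 with hvdef
          by_cases hlt : v < u
          · left
            exact ⟨v, hv, fun w hw => lt_of_lt_of_le hlt (U.min'_le w hw),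
              fun w hw => V.min'_le w hw⟩
          · right
            push Not at hlt
            have h3 : u + K < v := by
              by_contra hcon
              push Not at hcon
              obtain ⟨b, hb, hbt⟩ := (hU u hu).2 v hlt hcon
              exact (hV v hv).1 b hb hbt
            exact ⟨u, hu, fun w hw => lt_of_lt_of_le h3 (V.min'_le w hw),
              fun w hw => U.min'_le w hw⟩
        · right
          rw [not_nonempty_iff_eq_empty] at hV0
          subst hV0
          exact ⟨U.min' hU0, U.min'_mem hU0, by simp, fun w hw => U.min'_le w hw⟩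
      · rw [not_nonempty_iff_eq_empty] at hU0
        subst hU0
        left
        have hV0 : V.Nonempty := by
          rw [← card_pos]; simp at hc; omega
        exact ⟨V.min' hV0, V.min'_mem hV0, by simp, fun w hw => V.min'_le w hw⟩
    rcases key with ⟨v, hv, hvU, hvV⟩ | ⟨u, hu, huV, huU⟩
    · -- peel v
      set D' := D.filter (fun b => v - K < b.1) with hD'
      have hsub : D' ⊆ D := filter_subset _ _
      have hVc : (V.erase v).card = V.card - 1 := card_erase_of_mem hv
      have hVpos : 0 < V.card := card_pos.mpr ⟨v, hv⟩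
      have h1 := ih D' U (V.erase v) (fun b hb => hD b (hsub hb)) (by omega)
        (by
          intro u hu
          refine ⟨fun b hb => (hU u hu).1 b (hsub hb), fun t ht1 ht2 => ?_⟩
          obtain ⟨b, hb, hbt⟩ := (hU u hu).2 t ht1 ht2
          refine ⟨b, ?_, hbt⟩
          rw [hD', mem_filter]
          refine ⟨hb, ?_⟩
          have := (hD b hb).2
          have := hvU u hu
          omega)
        (by
          intro w hw
          rw [mem_erase] at hw
          refine ⟨fun b hb => (hV w hw.2).1 b (hsub hb), fun s hs1 hs2 => ?_⟩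
          obtain ⟨b, hb, hbs⟩ := (hV w hw.2).2 s hs1 hs2
          refine ⟨b, ?_, hbs⟩
          rw [hD', mem_filter]
          refine ⟨hb, ?_⟩
          have := hvV w hw.2
          have := hw.1
          omega)
      obtain ⟨b, hb, hbs⟩ := (hV v hv).2 (v - K) le_rfl (by omega)
      have h2 : D' ⊂ D := by
        refine ⟨hsub, fun h => ?_⟩
        have := h hb
        rw [hD', mem_filter] at this
        omega
      have h3 := card_lt_card h2
      push_cast
      omega
    · set D' := D.filter (fun b => u < b.2) with hD'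
      have hsub : D' ⊆ D := filter_subset _ _
      have hUc : (U.erase u).card = U.card - 1 := card_erase_of_mem hu
      have hUpos : 0 < U.card := card_pos.mpr ⟨u, hu⟩
      have h1 := ih D' (U.erase u) V (fun b hb => hD b (hsub hb)) (by omega)
        (by
          intro w hw
          rw [mem_erase] at hw
          refine ⟨fun b hb => (hU w hw.2).1 b (hsub hb), fun t ht1 ht2 => ?_⟩
          obtain ⟨b, hb, hbt⟩ := (hU w hw.2).2 t ht1 ht2
          refine ⟨b, ?_, hbt⟩
          rw [hD', mem_filter]
          refine ⟨hb, ?_⟩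
          have := huU w hw.2
          have := hw.1
          omega)
        (by
          intro w hw
          refine ⟨fun b hb => (hV w hw).1 b (hsub hb), fun s hs1 hs2 => ?_⟩
          obtain ⟨b, hb, hbs⟩ := (hV w hw).2 s hs1 hs2
          refine ⟨b, ?_, hbs⟩
          rw [hD', mem_filter]
          refine ⟨hb, ?_⟩
          have := (hD b hb).1
          have := huV w hw
          omega)
      obtain ⟨b, hb, hbs⟩ := (hU u hu).2 u le_rfl (by omega)
      have h2 : D' ⊂ D := by
        refine ⟨hsub, fun h => ?_⟩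
        have := h hb
        rw [hD', mem_filter] at this
        omega
      have h3 := card_lt_card h2
      push_cast
      omega

/-- The bound for one colour class, in the coordinates `i = t - s`, `j = s + t + p`. -/
theorem colour_bound (K n p : ℤ) (hK : 1 ≤ K) (hn : 2 * K + 3 ≤ n) (hp : p = 0 ∨ p = 1)
    (D : Finset (ℤ × ℤ))
    (hD : ∀ b ∈ D, 0 ≤ b.2 - b.1 ∧ b.2 - b.1 ≤ K ∧ 0 ≤ b.1 + b.2 + p ∧ b.1 + b.2 + p ≤ n - 1)
    (hdom : ∀ s t : ℤ, 0 ≤ t - s → t - s ≤ K → 0 ≤ s + t + p → s + t + p ≤ n - 1 →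
      (∃ b ∈ D, b.1 = s) ∨ (∃ b ∈ D, b.2 = t)) :
    n + K - 1 ≤ 3 * (D.card : ℤ) := by
  classical
  set R := D.image Prod.fst with hR
  set C := D.image Prod.snd with hC
  set Sall := Icc (-((K + p) / 2)) ((n - 1 - p) / 2) with hSall
  set Tall := Icc (0 : ℤ) ((n - 1 + K - p) / 2) with hTall
  have memR : ∀ s, s ∈ R ↔ ∃ b ∈ D, b.1 = s := fun s => by rw [hR, mem_image]
  have memC : ∀ s, s ∈ C ↔ ∃ b ∈ D, b.2 = s := fun s => by rw [hC, mem_image]
  set U := Sall \ R with hU
  set V := Tall \ C with hV
  have hRs : R ⊆ Sall := by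
    intro s hs
    obtain ⟨b, hb, rfl⟩ := (memR s).mp hs
    obtain ⟨h1, h2, h3, h4⟩ := hD b hb
    rw [hSall, mem_Icc]
    rcases hp with rfl | rfl <;> constructor <;> omega
  have hCs : C ⊆ Tall := by
    intro s hs
    obtain ⟨b, hb, rfl⟩ := (memC s).mp hs
    obtain ⟨h1, h2, h3, h4⟩ := hD b hb
    rw [hTall, mem_Icc]
    rcases hp with rfl | rfl <;> constructor <;> omega
  have hUc : U.card + R.card = Sall.card := by
    rw [hU, card_sdiff_add_card_eq_card hRs]
  have hVc : V.card + C.card = Tall.card := by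
    rw [hV, card_sdiff_add_card_eq_card hCs]
  have hRD : R.card ≤ D.card := card_image_le
  have hCD : C.card ≤ D.card := card_image_le
  -- split U and V
  set UI := U.filter (fun s => 0 ≤ 2 * s + p ∧ 2 * s + p ≤ n - 1 - K) with hUI
  set UL := U.filter (fun s => 2 * s + p < 0) with hUL
  set UR := U.filter (fun s => n - 1 - K < 2 * s + p) with hUR
  set VI := V.filter (fun t => K ≤ 2 * t + p ∧ 2 * t + p ≤ n - 1) with hVI
  set VL := V.filter (fun t => 2 * t + p < K) with hVL
  set VR := V.filter (fun t => n - 1 < 2 * t + p) with hVR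
  have hUsplit : U.card ≤ UI.card + UL.card + UR.card := by
    have : U ⊆ UI ∪ UL ∪ UR := by
      intro s hs
      simp only [hUI, hUL, hUR, mem_union, mem_filter, hs, true_and]
      omega
    refine (card_le_card this).trans ?_
    refine (card_union_le _ _).trans ?_
    have := card_union_le UI UL
    omega
  have hVsplit : V.card ≤ VI.card + VL.card + VR.card := by
    have : V ⊆ VI ∪ VL ∪ VR := by
      intro s hs
      simp only [hVI, hVL, hVR, mem_union, mem_filter, hs, true_and]
      omega
    refine (card_le_card this).trans ?_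
    refine (card_union_le _ _).trans ?_
    have := card_union_le VI VL
    omega
  have hUmem : ∀ u, u ∈ U ↔ (-((K + p) / 2) ≤ u ∧ u ≤ (n - 1 - p) / 2) ∧ ¬ ∃ b ∈ D, b.1 = u := by
    intro u; rw [hU, mem_sdiff, memR, hSall, mem_Icc]
  have hVmem : ∀ u, u ∈ V ↔ (0 ≤ u ∧ u ≤ (n - 1 + K - p) / 2) ∧ ¬ ∃ b ∈ D, b.2 = u := by
    intro u; rw [hV, mem_sdiff, memC, hTall, mem_Icc]
  -- left boundary
  have hLeft : (UL.card : ℤ) + VL.card ≤
      ((Icc (-((K + p) / 2)) (-((p + 1) / 2))).card : ℤ) := by
    have hdisj : Disjoint UL (VL.image (fun v => -p - v)) := by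
      rw [disjoint_left]
      intro u hu hu2
      obtain ⟨v, hv, hvu⟩ := mem_image.mp hu2
      rw [hUL, mem_filter, hUmem] at hu
      rw [hVL, mem_filter, hVmem] at hv
      have := hdom u v (by rcases hp with rfl | rfl <;> omega) (by rcases hp with rfl | rfl <;> omega)
        (by omega) (by omega)
      rcases this with h | h
      · exact hu.1.2 h
      · exact hv.1.2 h
    have hsub : UL ∪ (VL.image (fun v => -p - v)) ⊆ Icc (-((K + p) / 2)) (-((p + 1) / 2)) := by
      intro x hx
      rw [mem_union] at hx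
      rw [mem_Icc]
      rcases hx with hx | hx
      · rw [hUL, mem_filter, hUmem] at hx
        rcases hp with rfl | rfl <;> constructor <;> omega
      · obtain ⟨v, hv, rfl⟩ := mem_image.mp hx
        rw [hVL, mem_filter, hVmem] at hv
        rcases hp with rfl | rfl <;> constructor <;> omega
    have h1 := card_le_card hsub
    rw [card_union_of_disjoint hdisj, card_image_of_injective _ (fun a b h => by simpa using h)] at h1
    exact_mod_cast h1
  have hRight : (UR.card : ℤ) + VR.card ≤
      ((Icc ((n - p - K) / 2) ((n - 1 - p) / 2)).card : ℤ) := by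
    have hdisj : Disjoint UR (VR.image (fun v => n - 1 - p - v)) := by
      rw [disjoint_left]
      intro u hu hu2
      obtain ⟨v, hv, hvu⟩ := mem_image.mp hu2
      rw [hUR, mem_filter, hUmem] at hu
      rw [hVR, mem_filter, hVmem] at hv
      have := hdom u v (by rcases hp with rfl | rfl <;> omega) (by rcases hp with rfl | rfl <;> omega)
        (by omega) (by omega)
      rcases this with h | h
      · exact hu.1.2 h
      · exact hv.1.2 h
    have hsub : UR ∪ (VR.image (fun v => n - 1 - p - v)) ⊆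
        Icc ((n - p - K) / 2) ((n - 1 - p) / 2) := by
      intro x hx
      rw [mem_union] at hx
      rw [mem_Icc]
      rcases hx with hx | hx
      · rw [hUR, mem_filter, hUmem] at hx
        rcases hp with rfl | rfl <;> constructor <;> omega
      · obtain ⟨v, hv, rfl⟩ := mem_image.mp hx
        rw [hVR, mem_filter, hVmem] at hv
        rcases hp with rfl | rfl <;> constructor <;> omega
    have h1 := card_le_card hsub
    rw [card_union_of_disjoint hdisj, card_image_of_injective _ (fun a b h => by simpa using h)] at h1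
    exact_mod_cast h1
  have hS : (Sall.card : ℤ) = (n - 1 - p) / 2 + 1 + (K + p) / 2 := by
    rw [hSall, Int.card_Icc]
    rcases hp with rfl | rfl <;> omega
  have hT : (Tall.card : ℤ) = (n - 1 + K - p) / 2 + 1 := by
    rw [hTall, Int.card_Icc]
    rcases hp with rfl | rfl <;> omega
  have hA : ((Icc (-((K + p) / 2)) (-((p + 1) / 2))).card : ℤ) = (K + p) / 2 + 1 - (p + 1) / 2 := by
    rw [Int.card_Icc]
    rcases hp with rfl | rfl <;> omega
  have hB : ((Icc ((n - p - K) / 2) ((n - 1 - p) / 2)).card : ℤ) =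
      (n - 1 - p) / 2 + 1 - (n - p - K) / 2 := by
    rw [Int.card_Icc]
    rcases hp with rfl | rfl <;> omega
  rw [hA] at hLeft
  rw [hB] at hRight
  rcases Nat.eq_zero_or_pos (UI.card + VI.card) with h0 | h0
  · rcases hp with rfl | rfl <;> omega
  · obtain ⟨m, hm⟩ : ∃ m, UI.card + VI.card = m + 1 := ⟨UI.card + VI.card - 1, by omega⟩
    have h1 := peel K (by omega) m D UI VI (fun b hb => ⟨by have := hD b hb; omega,
      by have := hD b hb; omega⟩) hm
      (by
        intro u hu
        rw [hUI, mem_filter, hUmem] at hu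
        refine ⟨fun b hb hbu => hu.1.2 ⟨b, hb, hbu⟩, fun t ht1 ht2 => ?_⟩
        rcases hdom u t (by omega) (by omega) (by omega) (by omega) with h | h
        · exact absurd h hu.1.2
        · exact h)
      (by
        intro v hv
        rw [hVI, mem_filter, hVmem] at hv
        refine ⟨fun b hb hbu => hv.1.2 ⟨b, hb, hbu⟩, fun s hs1 hs2 => ?_⟩
        rcases hdom s v (by omega) (by omega) (by omega) (by omega) with h | h
        · exact h
        · exact absurd h hv.1.2)
    rcases hp with rfl | rfl <;> omega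

/-- The squares of colour `p` in the set `D`, in the coordinates `(s, t)` with `i = t - s`,
`j = s + t + p`. -/
def colourPart {k n : ℕ} (D : Finset (Fin k × Fin n)) (p : ℤ) : Finset (ℤ × ℤ) :=
  (D.filter (fun v => (((v.1 : ℕ) : ℤ) + ((v.2 : ℕ) : ℤ)) % 2 = p)).image
    (fun v => ((((v.2 : ℕ) : ℤ) - ((v.1 : ℕ) : ℤ) - p) / 2, (((v.1 : ℕ) : ℤ) + ((v.2 : ℕ) : ℤ) - p) / 2))

theorem colour_card {k n : ℕ} (hk : 2 < 2 * k) (hn : 2 * k < n) (D : Finset (Fin k × Fin n))
    (hD : IsDominating (bishopsGraph k n) D) (p : ℤ) (hp : p = 0 ∨ p = 1) :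
    (n : ℤ) + k - 2 ≤ 3 * ((colourPart D p).card : ℤ) := by
  have h := colour_bound ((k : ℤ) - 1) n p (by omega) (by omega) hp (colourPart D p)
    (by
      intro b hb
      obtain ⟨v, hv, rfl⟩ := mem_image.mp hb
      rw [mem_filter] at hv
      have h1 := v.1.2
      have h2 := v.2.2
      obtain ⟨_, hv2⟩ := hv
      rcases hp with rfl | rfl <;> (simp only; omega))
    (by
      intro s t h1 h2 h3 h4
      have hi : (t - s).toNat < k := by omega
      have hj : (s + t + p).toNat < n := by omega
      set v : Fin k × Fin n := (⟨(t - s).toNat, hi⟩, ⟨(s + t + p).toNat, hj⟩) with hv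
      have hv1 : (((v.1 : ℕ)) : ℤ) = t - s := by
        rw [hv]; simp only; omega
      have hv2 : (((v.2 : ℕ)) : ℤ) = s + t + p := by
        rw [hv]; simp only; omega
      have main : ∀ w ∈ D, ((((v.2 : ℕ)) : ℤ) - ((v.1 : ℕ) : ℤ) = ((w.2 : ℕ) : ℤ) - ((w.1 : ℕ) : ℤ) ∨
          (((v.2 : ℕ)) : ℤ) + ((v.1 : ℕ) : ℤ) = ((w.2 : ℕ) : ℤ) + ((w.1 : ℕ) : ℤ)) →
          (∃ b ∈ colourPart D p, b.1 = s) ∨ (∃ b ∈ colourPart D p, b.2 = t) := by
        intro w hw hor
        have hmem : ((((w.2 : ℕ) : ℤ) - ((w.1 : ℕ) : ℤ) - p) / 2,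
            (((w.1 : ℕ) : ℤ) + ((w.2 : ℕ) : ℤ) - p) / 2) ∈ colourPart D p := by
          refine mem_image.mpr ⟨w, ?_, rfl⟩
          rw [mem_filter]
          refine ⟨hw, ?_⟩
          rw [hv1, hv2] at hor
          rcases hp with rfl | rfl <;> rcases hor with hor | hor <;> omega
        rw [hv1, hv2] at hor
        rcases hor with hor | hor
        · left
          refine ⟨_, hmem, ?_⟩
          simp only
          omega
        · right
          refine ⟨_, hmem, ?_⟩
          simp only
          omega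
      by_cases hvD : v ∈ D
      · exact main v hvD (Or.inl rfl)
      · obtain ⟨w, hw, hadj⟩ := hD v hvD
        refine main w hw ?_
        have h5 := hadj.2
        rcases abs_eq_abs.mp h5 with h6 | h6
        · left; linarith
        · right; linarith)
  have : (n : ℤ) + (k - 1) - 1 = n + k - 2 := by ring
  linarith

theorem lower_bound {k n : ℕ} (hk : 2 < 2 * k) (hn : 2 * k < n) (D : Finset (Fin k × Fin n))
    (hD : IsDominating (bishopsGraph k n) D) : 2 * ((k + n) / 3) ≤ D.card := by
  have h0 := colour_card hk hn D hD 0 (Or.inl rfl)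
  have h1 := colour_card hk hn D hD 1 (Or.inr rfl)
  have c0 : (colourPart D 0).card ≤
      (D.filter (fun v => (((v.1 : ℕ) : ℤ) + ((v.2 : ℕ) : ℤ)) % 2 = 0)).card := card_image_le
  have c1 : (colourPart D 1).card ≤
      (D.filter (fun v => (((v.1 : ℕ) : ℤ) + ((v.2 : ℕ) : ℤ)) % 2 = 1)).card := card_image_le
  have hsum : (D.filter (fun v => (((v.1 : ℕ) : ℤ) + ((v.2 : ℕ) : ℤ)) % 2 = 0)).card +
      (D.filter (fun v => (((v.1 : ℕ) : ℤ) + ((v.2 : ℕ) : ℤ)) % 2 = 1)).card ≤ D.card := by
    rw [← card_union_of_disjoint]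
    · exact card_le_card (union_subset (filter_subset _ _) (filter_subset _ _))
    · rw [disjoint_left]
      intro v hv hv'
      rw [mem_filter] at hv hv'
      omega
  omega

/-- **Resolution of Q1 (the open inequality)**: for `2 < 2k < n` every dominating set of the
bishops graph `B_{k,n}` has at least `2⌊(k+n)/3⌋` squares, i.e. `γ(B_{k,n}) ≥ 2⌊(k+n)/3⌋`; the
negated form of the question (some `γ(B_{k,n}) < 2⌊(k+n)/3⌋`) is false. -/
theorem result :
    (∀ k n : ℕ, 2 < 2 * k → 2 * k < n →
      2 * ((k + n) / 3) ≤ dominationNumber (bishopsGraph k n)) ∧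
    ¬ ∃ k n : ℕ, 2 < 2 * k ∧ 2 * k < n ∧
      dominationNumber (bishopsGraph k n) < 2 * ((k + n) / 3) := by
  have main : ∀ k n : ℕ, 2 < 2 * k → 2 * k < n →
      2 * ((k + n) / 3) ≤ dominationNumber (bishopsGraph k n) := by
    intro k n hk hn
    unfold dominationNumber
    apply le_csInf
    · exact ⟨_, univ, fun v hv => absurd (mem_univ v) hv, rfl⟩
    · rintro m ⟨D, hD, rfl⟩
      exact lower_bound hk hn D hD
  refine ⟨main, ?_⟩
  rintro ⟨k, n, h1, h2, h3⟩
  exact absurd (main k n h1 h2) (by omega)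

end Pool.Agent.Results.MP_8e2e71_co.Bishops
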